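import Pool.Agent.helper60.DB.SpecI

/-!
# Row bi:LF (MP_fb2c2a_nt)
-/

set_option autoImplicit false

namespace Pool.Agent.helper60.DB

open Polynomial Finset Pool.Agent.helper60.DK

section
variable {R : Type*} [CommRing R]

theorem LF_th_add (f g : R[X]) : th (f + g) = th f + th g := by
  unfold th
  rw [derivative_add, mul_add]

theorem LF_th_mul (f g : R[X]) : th (f * g) = th f * g + f * th g := by
  unfold th
  rw [derivative_mul]
  ring

theorem LF_th_C_mul (c : R) (f : R[X]) : th (C c * f) = C c * th f := by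
  unfold th
  rw [derivative_C_mul]
  ring

theorem LF_th_zero : th (0 : R[X]) = 0 := by
  unfold th
  rw [derivative_zero, mul_zero]

theorem LF_th_one : th (1 : R[X]) = 0 := by
  unfold th
  rw [derivative_one, mul_zero]

theorem LF_th_eig_mul {f g a b : R[X]} (hf : th f = a * f) (hg : th g = b * g) :
    th (f * g) = (a + b) * (f * g) := by
  rw [LF_th_mul, hf, hg]
  ring

theorem LF_th_eig_pow {f a : R[X]} (hf : th f = a * f) (n : ℕ) :
    th (f ^ n) = ((n : R[X]) * a) * f ^ n := by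
  induction n with
  | zero => rw [pow_zero, LF_th_one]; simp
  | succ n ih =>
    rw [pow_succ, LF_th_mul, ih, hf]
    push_cast
    ring

theorem LF_Lam_add (P : R) (f g : R[X]) : Lam P (f + g) = Lam P f + Lam P g := by
  unfold Lam
  simp only [LF_th_add]
  ring

theorem LF_Lam_C_mul (P c : R) (f : R[X]) : Lam P (C c * f) = C c * Lam P f := by
  unfold Lam
  simp only [LF_th_C_mul]
  ring

theorem LF_Lam_zero (P : R) : Lam P (0 : R[X]) = 0 := by
  unfold Lam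
  simp only [LF_th_zero, mul_zero, add_zero]

theorem LF_Lam_sum (P : R) {ι : Type*} (s : Finset ι) (f : ι → R[X]) :
    Lam P (∑ i ∈ s, f i) = ∑ i ∈ s, Lam P (f i) := by
  classical
  induction s using Finset.induction_on with
  | empty => rw [Finset.sum_empty, Finset.sum_empty, LF_Lam_zero]
  | insert a s ha ih => rw [Finset.sum_insert ha, Finset.sum_insert ha, LF_Lam_add, ih]

theorem LF_Lam_eig (P : R) {t l l1 l2 : R[X]} (ht : th t = l * t) (h1 : th l = l1)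
    (h2 : th l1 = l2) :
    Lam P t = (l ^ 3 + 3 * l * l1 + l2 + A1 P * (l ^ 2 + l1) + A2 P * l + A3 P) * t := by
  unfold Lam
  have e1 : th (th t) = (l ^ 2 + l1) * t := by
    rw [ht, LF_th_mul, h1, ht]
    ring
  have e2 : th (th (th t)) = (l ^ 3 + 3 * l * l1 + l2) * t := by
    rw [e1, LF_th_mul, LF_th_add, ht, h2, pow_two, LF_th_mul, h1]
    ring
  rw [e2, e1, ht]
  ring

end

/-- the eigenvalue -/
noncomputable def LF_l (h k : ℕ) : ℤ[X] :=
  -6 * (X ^ 2 + 2 * X - 2) * (k : ℤ[X]) + (X ^ 2 - 1) * ((6 * (h : ℤ[X]) + 1) * X - 2)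

/-- first derivative of the eigenvalue -/
noncomputable def LF_m (h k : ℕ) : ℤ[X] :=
  -6 * (2 * X + 2) * (k : ℤ[X]) + 2 * X * ((6 * (h : ℤ[X]) + 1) * X - 2)
    + (X ^ 2 - 1) * (6 * (h : ℤ[X]) + 1)

/-- `th l` -/
noncomputable def LF_l1 (h k : ℕ) : ℤ[X] := (X ^ 2 - 1) * (X ^ 2 - 4) * LF_m h k

/-- `th (th l)` -/
noncomputable def LF_l2 (h k : ℕ) : ℤ[X] :=
  (X ^ 2 - 1) * (X ^ 2 - 4) * ((4 * X ^ 3 - 10 * X) * LF_m h k + (X ^ 2 - 1) * (X ^ 2 - 4) *
    (-12 * (k : ℤ[X]) + 2 * ((6 * (h : ℤ[X]) + 1) * X - 2) + 4 * X * (6 * (h : ℤ[X]) + 1)))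

theorem LF_thU : th UU = ((X ^ 2 - 4) * (4 * X - 2)) * UU := by
  unfold th ww UU
  simp only [derivative_mul, derivative_pow, derivative_sub, derivative_add, derivative_X,
    derivative_one, Nat.cast_ofNat, map_ofNat, Nat.add_one_sub_one]
  ring

theorem LF_thV : th VV = ((X ^ 2 - 1) * (4 * X + 4)) * VV := by
  unfold th ww VV
  simp only [derivative_mul, derivative_pow, derivative_sub, derivative_add, derivative_X,
    derivative_ofNat, Nat.cast_ofNat, map_ofNat, Nat.add_one_sub_one]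
  ring

theorem LF_thX : th (X + 2 : ℤ[X]) = ((X ^ 2 - 1) * (X - 2)) * (X + 2) := by
  unfold th ww
  simp only [derivative_add, derivative_X, derivative_ofNat]
  ring

theorem LF_thl (h k : ℕ) : th (LF_l h k) = LF_l1 h k := by
  unfold th ww LF_l LF_l1 LF_m
  simp only [derivative_mul, derivative_pow, derivative_sub, derivative_add, derivative_X,
    derivative_ofNat, derivative_one, derivative_natCast, derivative_neg, Nat.cast_ofNat,
    map_ofNat, Nat.add_one_sub_one]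
  ring

theorem LF_thl1 (h k : ℕ) : th (LF_l1 h k) = LF_l2 h k := by
  unfold th ww LF_l1 LF_l2 LF_m
  simp only [derivative_mul, derivative_pow, derivative_sub, derivative_add, derivative_X,
    derivative_ofNat, derivative_one, derivative_natCast, derivative_neg, Nat.cast_ofNat,
    map_ofNat, Nat.add_one_sub_one]
  ring

theorem LF_bracket (h k : ℕ) :
    LF_l h k ^ 3 + 3 * LF_l h k * LF_l1 h k + LF_l2 h k
      + A1 (2 * (h : ℤ) + 1) * (LF_l h k ^ 2 + LF_l1 h k) + A2 (2 * (h : ℤ) + 1) * LF_l h k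
      + A3 (2 * (h : ℤ) + 1)
      = 36 * (X ^ 2 + 2 * X - 2) * (2 * (k : ℤ[X]) ^ 3 * VV - (2 * (k : ℤ[X]) + 1) ^ 3 * UU) := by
  have hP : C (2 * (h : ℤ) + 1) = 2 * (h : ℤ[X]) + 1 := by
    simp only [map_add, map_mul, map_ofNat, map_one, map_natCast]
  have h1 : C (-9 * (2 * (h : ℤ) + 1)) = -9 * (2 * (h : ℤ[X]) + 1) := by
    rw [map_mul, hP]
    simp only [map_neg, map_ofNat]
  unfold A1 A2 A3 LF_l2 LF_l1 LF_l LF_m ww UU VV
  rw [h1]
  simp only [map_pow, hP]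
  ring

theorem LF_tau (h k : ℕ) (hk : k ≤ h) :
    th ((X + 2) ^ (2 * h + 1) * (UU ^ k * VV ^ (h - k)))
      = LF_l h k * ((X + 2) ^ (2 * h + 1) * (UU ^ k * VV ^ (h - k))) := by
  rw [LF_th_eig_mul (LF_th_eig_pow LF_thX _)
    (LF_th_eig_mul (LF_th_eig_pow LF_thU k) (LF_th_eig_pow LF_thV (h - k)))]
  congr 1
  rw [Nat.cast_sub hk]
  unfold LF_l
  push_cast
  ring

/-- `σ_k` -/
noncomputable def LF_s (h k : ℕ) : ℤ[X] := UU ^ k * VV ^ (h + 1 - k) * (X + 2) ^ (2 * h + 1)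

theorem LF_term (h k : ℕ) (hk : k ≤ h) :
    Lam (2 * (h : ℤ) + 1) ((X + 2) ^ (2 * h + 1) * (UU ^ k * VV ^ (h - k)))
      = 36 * (X ^ 2 + 2 * X - 2) * (2 * (k : ℤ[X]) ^ 3 * LF_s h k
        - (2 * (k : ℤ[X]) + 1) ^ 3 * LF_s h (k + 1)) := by
  rw [LF_Lam_eig _ (LF_tau h k hk) (LF_thl h k) (LF_thl1 h k), LF_bracket]
  unfold LF_s
  have e1 : h + 1 - k = (h - k) + 1 := by omega
  have e2 : h + 1 - (k + 1) = h - k := by omega
  rw [e1, e2]
  ring

theorem LF_c3 (k : ℕ) : ((k : ℤ) + 1) ^ 3 * c3 (k + 1) = 8 * (2 * (k : ℤ) + 1) ^ 3 * c3 k := by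
  have h1 := Nat.succ_mul_centralBinom_succ k
  have h2 : ((k : ℤ) + 1) * ((k + 1).centralBinom : ℤ) = 2 * (2 * (k : ℤ) + 1) * (k.centralBinom : ℤ) := by
    exact_mod_cast h1
  unfold c3
  rw [← mul_pow, h2]
  ring

theorem LF_partial (h : ℕ) : ∀ m : ℕ, m ≤ h →
    ∑ k ∈ range m, C (c3 k * 16 ^ (h - k)) * (2 * (k : ℤ[X]) ^ 3 * LF_s h k
      - (2 * (k : ℤ[X]) + 1) ^ 3 * LF_s h (k + 1))
      = - (C (c3 m * 16 ^ (h - m)) * (2 * (m : ℤ[X]) ^ 3 * LF_s h m)) := by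
  intro m
  induction m with
  | zero => intro _; simp
  | succ m ih =>
    intro hm
    rw [Finset.sum_range_succ, ih (by omega)]
    have e1 : h - m = (h - (m + 1)) + 1 := by omega
    have e2 : C (c3 m * 16 ^ (h - m)) * (2 * (m : ℤ[X]) + 1) ^ 3
        = C (c3 (m + 1) * 16 ^ (h - (m + 1))) * (2 * ((m + 1 : ℕ) : ℤ[X]) ^ 3) := by
      have e3 : (2 * (m : ℤ[X]) + 1) ^ 3 = C ((2 * (m : ℤ) + 1) ^ 3) := by
        simp only [map_pow, map_add, map_mul, map_ofNat, map_one, map_natCast]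
      have e4 : 2 * ((m + 1 : ℕ) : ℤ[X]) ^ 3 = C (2 * ((m : ℤ) + 1) ^ 3) := by
        simp only [map_pow, map_add, map_mul, map_ofNat, map_one, map_natCast, Nat.cast_add,
          Nat.cast_one]
      rw [e3, e4, ← C_mul, ← C_mul, e1, pow_succ]
      congr 1
      linear_combination (-2 * 16 ^ (h - (m + 1))) * LF_c3 m
    linear_combination (- LF_s h (m + 1)) * e2

theorem LF : LF_stmt := by
  intro h
  have h1 : (X + 2) ^ (2 * h + 1) * Kf h
      = ∑ k ∈ range (h + 1), C (c3 k * 16 ^ (h - k)) *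
        ((X + 2) ^ (2 * h + 1) * (UU ^ k * VV ^ (h - k))) := by
    unfold Kf
    rw [Finset.mul_sum]
    refine Finset.sum_congr rfl fun k _ => ?_
    ring
  have h2 : ∀ k ∈ range (h + 1), Lam (2 * (h : ℤ) + 1) (C (c3 k * 16 ^ (h - k)) *
      ((X + 2) ^ (2 * h + 1) * (UU ^ k * VV ^ (h - k))))
      = 36 * (X ^ 2 + 2 * X - 2) * (C (c3 k * 16 ^ (h - k)) * (2 * (k : ℤ[X]) ^ 3 * LF_s h k
        - (2 * (k : ℤ[X]) + 1) ^ 3 * LF_s h (k + 1))) := by
    intro k hk
    rw [Finset.mem_range] at hk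
    rw [LF_Lam_C_mul, LF_term h k (by omega)]
    ring
  rw [h1, LF_Lam_sum, Finset.sum_congr rfl h2, ← Finset.mul_sum, Finset.sum_range_succ,
    LF_partial h h le_rfl]
  have e1 : h - h = 0 := by omega
  have e2 : LF_s h (h + 1) = UU ^ (h + 1) * (X + 2) ^ (2 * h + 1) := by
    unfold LF_s
    have : h + 1 - (h + 1) = 0 := by omega
    rw [this, pow_zero, mul_one]
  have e3 : C ((2 * (h : ℤ) + 1) ^ 3 * c3 h) = (2 * (h : ℤ[X]) + 1) ^ 3 * C (c3 h) := by
    rw [C_mul]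
    congr 1
    simp only [map_pow, map_add, map_mul, map_ofNat, map_one, map_natCast]
  rw [e1, pow_zero, mul_one, e2, e3]
  ring

end Pool.Agent.helper60.DB
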